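import Mathlib

/-! Triangulated closed 3-manifolds: hyperbolic structures, edge-path groups, bistellar flips
and Heegaard splittings. -/

set_option autoImplicit false

namespace Pool.Agent.P.MP_4830f8_gt

open Finset Matrix

/-- A simplicial complex, given by the vertex sets of its tetrahedra. -/
abbrev Cx := Finset (Finset ℕ)

/-- `A` spans a face of `T`. -/
def Face (T : Cx) (A : Finset ℕ) : Prop := ∃ σ ∈ T, A ⊆ σ

/-- A connected closed orientable pseudo-manifold of dimension three with connected vertex and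
edge links. -/
structure Closed3 (T : Cx) : Prop where
  ne : T.Nonempty
  card : ∀ σ ∈ T, σ.card = 4
  two : ∀ σ ∈ T, ∀ v ∈ σ, (T.filter fun τ => σ.erase v ⊆ τ).card = 2
  link : ∀ A : Finset ℕ, A.card ≤ 2 → ∀ a ∉ A, ∀ b ∉ A, Face T (insert a A) →
    Face T (insert b A) →
    Relation.ReflTransGen (fun x y => y ∉ A ∧ Face T (insert x (insert y A))) a b
  ori : ∃ o : ℕ → ℕ → ℕ → ℕ → Bool, ∀ v w a b, {v, w, a, b} ∈ T →
    o v w a b ≠ o w v a b ∧ o v w a b ≠ o v a w b ∧ o v w a b ≠ o v w b a ∧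
      ∀ c, c ≠ b → {v, w, a, c} ∈ T → o v w a b ≠ o v w a c

/-- The hyperbolic cosine of the distance in the hyperboloid model, the point
`(√(1 + x·x), x)` being recorded by `x`. -/
noncomputable def ch (x y : Fin 3 → ℝ) : ℝ := √(1 + x ⬝ᵥ x) * √(1 + y ⬝ᵥ y) - x ⬝ᵥ y

/-- The dihedral angle along `0 p` between the half-planes through `a` and `b`. -/
noncomputable def dih (p a b : Fin 3 → ℝ) : ℝ :=
  Real.arccos ((p ⨯₃ a) ⬝ᵥ (p ⨯₃ b) / √((p ⨯₃ a) ⬝ᵥ (p ⨯₃ a) * ((p ⨯₃ b) ⬝ᵥ (p ⨯₃ b))))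

/-- The tetrahedra of `T` are non-degenerate hyperbolic tetrahedra with common edge lengths
whose dihedral angles add up to `2π` along every edge. The map `x v` places the star of `v`
in hyperbolic space with `v` at the origin. -/
def Hyp (T : Cx) : Prop :=
  ∃ (x : ℕ → ℕ → Fin 3 → ℝ) (l : ℕ → ℕ → ℝ) (θ : ℕ → ℕ → Finset ℕ → ℝ), (∀ v, x v v = 0) ∧
    (∀ v a b, Face T {v, a, b} → ch (x v a) (x v b) = l a b) ∧
    (∀ v w a b, {v, w, a, b} ∈ T → x v w ⬝ᵥ (x v a ⨯₃ x v b) ≠ 0 ∧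
      θ v w {v, w, a, b} = dih (x v w) (x v a) (x v b)) ∧
    ∀ v w, v < w → Face T {v, w} →
      ∑ σ ∈ T.filter (fun σ => v ∈ σ ∧ w ∈ σ), θ v w σ = 2 * Real.pi

/-- The triangle relations between oriented edges. -/
def rels (T : Cx) : Set (FreeGroup (ℕ × ℕ)) :=
  {r | ∃ u v w, Face T {u, v, w} ∧
    r = FreeGroup.of (u, v) * FreeGroup.of (v, w) * (FreeGroup.of (u, w))⁻¹}

/-- `Walk T u v g`: `g` is the class of an edge path from `u` to `v`. -/
inductive Walk (T : Cx) (u : ℕ) : ℕ → PresentedGroup (rels T) → Prop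
  | nil : Walk T u u 1
  | step {v w : ℕ} {g : PresentedGroup (rels T)} : Walk T u v g → Face T {v, w} →
      Walk T u w (g * PresentedGroup.of (v, w))

/-- The edge-path group of `T` is generated by `n` elements. -/
def RankLE (T : Cx) (n : ℕ) : Prop :=
  ∃ u, Face T {u} ∧ ∃ S : Finset (PresentedGroup (rels T)), S.card ≤ n ∧
    ∀ g, Walk T u u g ↔ g ∈ Subgroup.closure (S : Set (PresentedGroup (rels T)))

/-- The bistellar flip replacing the join of `A` and `∂B` by the join of `∂A` and `B`. -/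
def Flip (A B : Finset ℕ) (K K' : Cx) : Prop :=
  A.Nonempty ∧ B.Nonempty ∧ Disjoint A B ∧ (A ∪ B).card = 5 ∧
    ∃ R : Cx, (∀ σ ∈ R, ¬ A ⊆ σ ∧ ¬ B ⊆ σ) ∧ K = R ∪ B.image (A ∪ B).erase ∧
      K' = R ∪ A.image (A ∪ B).erase

/-- Renaming the vertices. -/
def ren (f : Equiv.Perm ℕ) (K : Cx) : Cx := K.image fun σ => σ.image f

/-- Bistellar equivalence. -/
def Eqv : Cx → Cx → Prop :=
  Relation.ReflTransGen fun K K' => (∃ A B, Flip A B K K') ∨ ∃ f, K' = ren f K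

/-- `Hb g K`: `K` is a handlebody of genus `g` together with the cone from the vertex `0` over its
boundary. Start from a tetrahedron; rename vertices; make a flip inside, or glue or remove a
tetrahedron along one or two boundary triangles; attach a prism along two boundary triangles. -/
inductive Hb : ℕ → Cx → Prop
  | ball : Hb 0 ((range 5).powersetCard 4)
  | ren {g : ℕ} {K : Cx} (f : Equiv.Perm ℕ) : f 0 = 0 → Hb g K → Hb g (ren f K)
  | flip {g : ℕ} {K K' : Cx} (A B : Finset ℕ) : Flip A B K K' → (0 ∈ A → 3 ≤ A.card) →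
      (0 ∈ B → 3 ≤ B.card) → Hb g K → Hb g K'
  | handle {g : ℕ} (R : Cx) (a b c d e f : ℕ) : [0, a, b, c, d, e, f].Nodup →
      (∀ σ ∈ R, σ ≠ {0, a, b, c} ∧ σ ≠ {0, d, e, f} ∧ ¬ {a, d} ⊆ σ ∧ ¬ {a, e} ⊆ σ ∧
        ¬ {a, f} ⊆ σ ∧ ¬ {b, e} ⊆ σ ∧ ¬ {b, f} ⊆ σ ∧ ¬ {c, f} ⊆ σ) →
      Hb g (R ∪ {{0, a, b, c}, {0, d, e, f}}) →
      Hb (g + 1) (R ∪ {{a, b, c, f}, {a, b, e, f}, {a, d, e, f}, {0, a, b, e}, {0, a, d, e},
        {0, b, c, f}, {0, b, e, f}, {0, a, c, f}, {0, a, d, f}})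

/-- `T` is the union of two handlebodies of genus `g` meeting exactly in their common boundary. -/
def Splits (g : ℕ) (T : Cx) : Prop :=
  ∃ K L : Cx, Hb g K ∧ Hb g L ∧ (∀ σ, 0 ∈ σ → (σ ∈ K ↔ σ ∈ L)) ∧
    (∀ σ, σ ∈ T ↔ 0 ∉ σ ∧ (σ ∈ K ∨ σ ∈ L)) ∧
    ∀ A, Face K A → Face L A → Face K (insert 0 A)

/-- The statement. -/
def Main : Prop :=
  ∃ T : Cx, Closed3 T ∧ Hyp T ∧ RankLE T 4 ∧ ∀ T', Eqv T T' → ∀ g ≤ 4, ¬ Splits g T'

end Pool.Agent.P.MP_4830f8_gt
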